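import Pool.Agent.Lib.BE.SpecP

set_option autoImplicit false

namespace Pool.Agent.Lib.BE

open Finset

private lemma BiP_res (𝓑 S : Finset ℕ) (W : ℕ → ℝ) (h : S ⊆ 𝓑) :
    ∑ b ∈ 𝓑, W b * (if b ∈ S then (1 : ℝ) else 0) = ∑ b ∈ S, W b := by
  classical
  rw [← Finset.sum_subset h (f := fun b => W b * (if b ∈ S then (1 : ℝ) else 0))]
  · exact Finset.sum_congr rfl fun b hb => by simp [hb]
  · intro b _ hb
    simp [hb]

private lemma BiP_ind {n : ℕ} (S : Fin n → Finset ℕ) (b : ℕ) (τ : ℝ) :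
    2 * τ * (∑ t, (if b ∈ S t then (1 : ℝ) else 0)) - τ ^ 2 * (∑ t, (if b ∈ S t then (1 : ℝ) else 0)) ^ 2 ≤
      (if ∃ t, b ∈ S t then (1 : ℝ) else 0) := by
  classical
  by_cases h : ∃ t, b ∈ S t
  · rw [if_pos h]
    nlinarith [sq_nonneg (1 - τ * ∑ t, (if b ∈ S t then (1 : ℝ) else 0))]
  · rw [if_neg h]
    have h0 : ∑ t, (if b ∈ S t then (1 : ℝ) else 0) = 0 := by
      refine Finset.sum_eq_zero fun t _ => ?_
      rw [if_neg fun hb => h ⟨t, hb⟩]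
    rw [h0]
    simp

private lemma BiP_one {n : ℕ} (𝓑 : Finset ℕ) (W : ℕ → ℝ) (S : Fin n → Finset ℕ) (h : ∀ t, S t ⊆ 𝓑) :
    ∑ b ∈ 𝓑, W b * (∑ t, (if b ∈ S t then (1 : ℝ) else 0)) = ∑ t, ∑ b ∈ S t, W b := by
  classical
  simp_rw [Finset.mul_sum]
  rw [Finset.sum_comm]
  exact Finset.sum_congr rfl fun t _ => BiP_res 𝓑 (S t) W (h t)

private lemma BiP_two {n : ℕ} (𝓑 : Finset ℕ) (W : ℕ → ℝ) (S : Fin n → Finset ℕ) (h : ∀ t, S t ⊆ 𝓑) :
    ∑ b ∈ 𝓑, W b * (∑ t, (if b ∈ S t then (1 : ℝ) else 0)) ^ 2 = ∑ t, ∑ t', ∑ b ∈ S t ∩ S t', W b := by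
  classical
  have e : ∀ b, W b * (∑ t, (if b ∈ S t then (1 : ℝ) else 0)) ^ 2 =
      ∑ t, ∑ t', W b * (if b ∈ S t ∩ S t' then (1 : ℝ) else 0) := by
    intro b
    rw [sq, Finset.sum_mul_sum, Finset.mul_sum]
    refine Finset.sum_congr rfl fun t _ => ?_
    rw [Finset.mul_sum]
    refine Finset.sum_congr rfl fun t' _ => ?_
    by_cases h1 : b ∈ S t <;> by_cases h2 : b ∈ S t' <;> simp [h1, h2]
  simp_rw [e]
  rw [Finset.sum_comm]
  refine Finset.sum_congr rfl fun t _ => ?_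
  rw [Finset.sum_comm]
  refine Finset.sum_congr rfl fun t' _ => ?_
  exact BiP_res 𝓑 (S t ∩ S t') W (Finset.inter_subset_left.trans (h t))

/-- one bin -/
private lemma BiP_bin {n : ℕ} (𝓑 : Finset ℕ) (W : ℕ → ℝ) (S : Fin n → Finset ℕ) (h : ∀ t, S t ⊆ 𝓑)
    (hW : ∀ b, 0 ≤ W b) (τ : ℝ) (x y z : Fin n → ℝ) (hτ : 0 ≤ τ) (hz : ∀ t, 0 ≤ z t)
    (hx : ∀ t, x t ≤ ∑ b ∈ S t, W b) (hy : ∀ t, ∑ b ∈ S t, W b ≤ y t)
    (hz2 : ∀ t t', t ≠ t' → ∑ b ∈ S t ∩ S t', W b ≤ z t) :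
    2 * τ * (∑ t, x t) - τ ^ 2 * (∑ t, (y t + n * z t)) ≤
      ∑ b ∈ 𝓑, W b * (if ∃ t, b ∈ S t then (1 : ℝ) else 0) := by
  classical
  have a1 : ∑ b ∈ 𝓑, W b * (2 * τ * (∑ t, (if b ∈ S t then (1 : ℝ) else 0)) -
      τ ^ 2 * (∑ t, (if b ∈ S t then (1 : ℝ) else 0)) ^ 2) ≤
      ∑ b ∈ 𝓑, W b * (if ∃ t, b ∈ S t then (1 : ℝ) else 0) :=
    Finset.sum_le_sum fun b _ => mul_le_mul_of_nonneg_left (BiP_ind S b τ) (hW b)
  have a2 : ∑ b ∈ 𝓑, W b * (2 * τ * (∑ t, (if b ∈ S t then (1 : ℝ) else 0)) -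
      τ ^ 2 * (∑ t, (if b ∈ S t then (1 : ℝ) else 0)) ^ 2) =
      2 * τ * (∑ t, ∑ b ∈ S t, W b) - τ ^ 2 * (∑ t, ∑ t', ∑ b ∈ S t ∩ S t', W b) := by
    rw [← BiP_one 𝓑 W S h, ← BiP_two 𝓑 W S h, Finset.mul_sum, Finset.mul_sum, ← Finset.sum_sub_distrib]
    exact Finset.sum_congr rfl fun b _ => by ring
  have a3 : ∑ t, x t ≤ ∑ t, ∑ b ∈ S t, W b := Finset.sum_le_sum fun t _ => hx t
  have a4 : ∑ t, ∑ t', ∑ b ∈ S t ∩ S t', W b ≤ ∑ t, (y t + n * z t) := by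
    refine Finset.sum_le_sum fun t _ => ?_
    rw [← Finset.add_sum_erase univ (fun t' => ∑ b ∈ S t ∩ S t', W b) (Finset.mem_univ t)]
    have b1 : ∑ b ∈ S t ∩ S t, W b ≤ y t := by
      rw [Finset.inter_self]
      exact hy t
    have b2 : ∑ t' ∈ univ.erase t, ∑ b ∈ S t ∩ S t', W b ≤ ∑ _t' ∈ univ.erase t, z t :=
      Finset.sum_le_sum fun t' ht' => hz2 t t' (Finset.ne_of_mem_erase ht').symm
    have b3 : ∑ _t' ∈ univ.erase t, z t ≤ n * z t := by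
      rw [Finset.sum_const, nsmul_eq_mul]
      refine mul_le_mul_of_nonneg_right ?_ (hz t)
      have : (univ.erase t).card ≤ n := by
        calc (univ.erase t).card ≤ (univ : Finset (Fin n)).card := Finset.card_le_card (Finset.erase_subset _ _)
          _ = n := by simp
      exact_mod_cast this
    linarith
  calc 2 * τ * (∑ t, x t) - τ ^ 2 * (∑ t, (y t + n * z t)) ≤
      2 * τ * (∑ t, ∑ b ∈ S t, W b) - τ ^ 2 * (∑ t, ∑ t', ∑ b ∈ S t ∩ S t', W b) := by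
        have c1 := mul_le_mul_of_nonneg_left a3 (by positivity : (0 : ℝ) ≤ 2 * τ)
        have c2 := mul_le_mul_of_nonneg_left a4 (by positivity : (0 : ℝ) ≤ τ ^ 2)
        linarith
    _ ≤ _ := by rw [← a2]; exact a1

/-- the numbers: D the sum of the densities of the bin, n its size, s = n α -/
private lemma BiP_num (n s D T ε e0 : ℝ) (hn : 1 ≤ n) (hs : 1000 ≤ s) (hD : n / 21 ≤ D) (hT : 0 < T)
    (_he0 : 0 ≤ e0) (he1 : e0 ≤ 1 / 1000) (hε0 : 0 ≤ ε) (hε : n ^ 2 * ε ≤ T / 10 ^ 6) :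
    T * (177 / 10000) ≤ 2 * (3 / (8 * s)) * (D * ((1 - e0) * (s / n * T)) - n * ε) -
      (3 / (8 * s)) ^ 2 * (D * (s / n * T) + n * ε + n * (D * (8 / 3 * ((s / n) ^ 2 * T)) + n * ε)) := by
  have hs0 : 0 < s := by linarith
  have hn0 : 0 < n := by linarith
  have e1 : 2 * (3 / (8 * s)) * (D * ((1 - e0) * (s / n * T)) - n * ε) -
      (3 / (8 * s)) ^ 2 * (D * (s / n * T) + n * ε + n * (D * (8 / 3 * ((s / n) ^ 2 * T)) + n * ε)) =
      D / n * T * (3 / 8 - 3 / 4 * e0 - 9 / (64 * s)) - 3 / (4 * s) * (n * ε) -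
        9 / (64 * s ^ 2) * (n * ε + n ^ 2 * ε) := by
    field_simp
    ring
  rw [e1]
  have h1 : 1 / 21 ≤ D / n := by
    rw [le_div_iff₀ hn0]
    linarith
  have h2 : 9 / (64 * s) ≤ 9 / 64000 := by
    apply div_le_div_of_nonneg_left (by norm_num) (by norm_num)
    linarith
  have h3 : n * ε ≤ n ^ 2 * ε := by
    refine mul_le_mul_of_nonneg_right ?_ hε0
    nlinarith
  have h4 : 3 / (4 * s) ≤ 1 := by
    rw [div_le_one (by positivity)]
    linarith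
  have h5 : 9 / (64 * s ^ 2) ≤ 1 := by
    rw [div_le_one (by positivity)]
    nlinarith
  have h6 : 0 ≤ n * ε := by positivity
  have h7 : 3 / (4 * s) * (n * ε) ≤ 1 * (n * ε) := mul_le_mul_of_nonneg_right h4 h6
  have h8 : 9 / (64 * s ^ 2) * (n * ε + n ^ 2 * ε) ≤ 1 * (n * ε + n ^ 2 * ε) :=
    mul_le_mul_of_nonneg_right h5 (by linarith)
  have h9 : 3739 / 10000 ≤ 3 / 8 - 3 / 4 * e0 - 9 / (64 * s) := by linarith
  have h10 : 1 / 21 * T * (3739 / 10000) ≤ D / n * T * (3 / 8 - 3 / 4 * e0 - 9 / (64 * s)) := by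
    have h11 : 1 / 21 * T ≤ D / n * T := mul_le_mul_of_nonneg_right h1 hT.le
    have h12 : 0 ≤ D / n * T := le_trans (by positivity) h11
    exact mul_le_mul h11 h9 (by norm_num) h12
  linarith

theorem tBiP : BiPStmt := by
  classical
  intro m n 𝓑 𝓡 W B d Z T α ε e0 hm hn hZ hT hα he0 he1 hA hW hRB hB hd hε hM hN h3 h4
  have hm' : (1 : ℝ) ≤ m := by exact_mod_cast hm
  have hn' : (1 : ℝ) ≤ n := by exact_mod_cast hn
  have hn0 : (0 : ℝ) < n := by linarith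
  have hε0 : 0 ≤ ε := by rw [hε]; positivity
  have hne : (n : ℝ) ^ 2 * ε ≤ T / 10 ^ 6 := by
    rw [hε]
    have : (n : ℝ) ^ 2 * (T / (10 ^ 6 * n ^ 2)) = T / 10 ^ 6 := by field_simp
    rw [this]
  by_contra hcon
  push Not at hcon
  have hbin : ∀ i, Z * (T * (177 / 10000)) ≤ ∑ b ∈ 𝓑, W b * (if ∃ t, b ∈ B i t then (1 : ℝ) else 0) := by
    intro i
    have k1 := BiP_bin 𝓑 W (B i) (hB i) hW (3 / (8 * (n * α)))
      (fun t => Z * (d i t * ((1 - e0) * (α * T)) - ε)) (fun t => Z * (d i t * (α * T) + ε))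
      (fun t => Z * (d i t * (8 / 3 * (α ^ 2 * T)) + ε)) (by positivity) (fun t => by
        have := hd i t
        have h0 : 0 ≤ d i t := by linarith
        positivity) (fun t => (h3 i t).1) (fun t => (h3 i t).2) (h4 i)
    refine le_trans ?_ k1
    have hD : (n : ℝ) / 21 ≤ ∑ t, d i t := by
      calc (n : ℝ) / 21 = ∑ _t : Fin n, (1 / 21 : ℝ) := by
            rw [Finset.sum_const, Finset.card_univ, Fintype.card_fin, nsmul_eq_mul]
            ring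
        _ ≤ _ := Finset.sum_le_sum fun t _ => hd i t
    have k2 := BiP_num n (n * α) (∑ t, d i t) T ε e0 hn' hA hD hT he0 he1 hε0 hne
    have e1 : (n : ℝ) * α / n = α := by field_simp
    rw [e1] at k2
    have e2 : ∑ t, Z * (d i t * ((1 - e0) * (α * T)) - ε) =
        Z * ((∑ t, d i t) * ((1 - e0) * (α * T)) - n * ε) := by
      rw [← Finset.mul_sum, Finset.sum_sub_distrib, ← Finset.sum_mul, Finset.sum_const, Finset.card_univ,
        Fintype.card_fin, nsmul_eq_mul]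
    have e3 : ∑ t, (Z * (d i t * (α * T) + ε) + n * (Z * (d i t * (8 / 3 * (α ^ 2 * T)) + ε))) =
        Z * ((∑ t, d i t) * (α * T) + n * ε + n * ((∑ t, d i t) * (8 / 3 * (α ^ 2 * T)) + n * ε)) := by
      rw [Finset.sum_add_distrib, ← Finset.mul_sum, ← Finset.mul_sum, ← Finset.mul_sum,
        Finset.sum_add_distrib, Finset.sum_add_distrib, ← Finset.sum_mul, ← Finset.sum_mul,
        Finset.sum_const, Finset.card_univ, Fintype.card_fin, nsmul_eq_mul]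
      ring
    rw [e2, e3]
    have k3 := mul_le_mul_of_nonneg_left k2 hZ.le
    calc Z * (T * (177 / 10000)) ≤ _ := k3
      _ = _ := by ring
  have hs0 : ∀ b, ∑ i : Fin m, (if ∃ t, b ∈ B i t then (1 : ℝ) else 0) ≤ m := by
    intro b
    rw [Finset.sum_boole]
    have : (univ.filter (fun i : Fin m => ∃ t, b ∈ B i t)).card ≤ m := by
      calc _ ≤ (univ : Finset (Fin m)).card := Finset.card_le_card (Finset.filter_subset _ _)
        _ = m := by simp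
    exact_mod_cast this
  have hs1 : ∑ b ∈ 𝓑, W b * (∑ i : Fin m, (if ∃ t, b ∈ B i t then (1 : ℝ) else 0)) ≤
      (m : ℝ) / 58 * ∑ b ∈ 𝓑, W b + m * ∑ b ∈ 𝓑 \ 𝓡, W b := by
    rw [← Finset.sum_sdiff hRB]
    have e1 : ∑ b ∈ 𝓑 \ 𝓡, W b * (∑ i : Fin m, (if ∃ t, b ∈ B i t then (1 : ℝ) else 0)) ≤
        m * ∑ b ∈ 𝓑 \ 𝓡, W b := by
      rw [Finset.mul_sum]
      refine Finset.sum_le_sum fun b _ => ?_
      rw [mul_comm]
      exact mul_le_mul_of_nonneg_right (hs0 b) (hW b)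
    have e2 : ∑ b ∈ 𝓡, W b * (∑ i : Fin m, (if ∃ t, b ∈ B i t then (1 : ℝ) else 0)) ≤
        (m : ℝ) / 58 * ∑ b ∈ 𝓡, W b := by
      rw [Finset.mul_sum]
      refine Finset.sum_le_sum fun b hb => ?_
      rw [mul_comm]
      refine mul_le_mul_of_nonneg_right ?_ (hW b)
      rw [Finset.sum_boole]
      exact (hcon b hb).le
    have e3 : (m : ℝ) / 58 * ∑ b ∈ 𝓡, W b ≤ (m : ℝ) / 58 * ∑ b ∈ 𝓑, W b :=
      mul_le_mul_of_nonneg_left (Finset.sum_le_sum_of_subset_of_nonneg hRB fun b _ _ => hW b) (by positivity)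
    linarith
  have hs4 : (m : ℝ) * ∑ b ∈ 𝓑 \ 𝓡, W b ≤ m * (Z * (T / 10 ^ 8)) :=
    mul_le_mul_of_nonneg_left hN (by positivity)
  have hs2 : (m : ℝ) * (Z * (T * (177 / 10000))) ≤
      ∑ b ∈ 𝓑, W b * (∑ i : Fin m, (if ∃ t, b ∈ B i t then (1 : ℝ) else 0)) := by
    simp_rw [Finset.mul_sum]
    rw [Finset.sum_comm]
    calc (m : ℝ) * (Z * (T * (177 / 10000))) = ∑ _i : Fin m, Z * (T * (177 / 10000)) := by simp
      _ ≤ _ := Finset.sum_le_sum fun i _ => hbin i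
  have hεT : ε ≤ T / 10 ^ 6 := by
    have : (1 : ℝ) * ε ≤ (n : ℝ) ^ 2 * ε := mul_le_mul_of_nonneg_right (by nlinarith) hε0
    linarith
  have hs3 : (m : ℝ) / 58 * ∑ b ∈ 𝓑, W b ≤ (m : ℝ) / 58 * (Z * (T + T / 10 ^ 6)) := by
    refine mul_le_mul_of_nonneg_left (hM.trans ?_) (by positivity)
    exact mul_le_mul_of_nonneg_left (by linarith) hZ.le
  have hpos : 0 < (m : ℝ) * (Z * T) := by positivity
  nlinarith

end Pool.Agent.Lib.BE
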