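import Pool.Agent.Lib.BE.SpecP

/-!
PROJECT OP, module CmP: assembly of Maynard-Tao in bins with an absolutely rough value in every bin, proportion 1/58 (port of BE/U/CmU).
-/

set_option autoImplicit false

namespace Pool.Agent.Lib.BE

open Finset
open Pool.Agent.Lib.MP_9f2731_nt.GP
open Pool.Agent.Lib.MP_9f2731_nt.GP.Sv
open Pool.Agent.Lib.MP_9f2731_nt.QL
open Pool.Agent.Lib.MP_9f2731_nt.QL.Sw
open Pool.Agent.Lib.MP_9f2731_nt.CG
open Pool.Agent.Lib.MP_9f2731_nt.CG.Ma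
open Pool.Agent.Lib.MP_9f2731_nt.CG.Mf

private theorem CmP_big (ε : ℝ) (hε : 0 < ε) : ∃ X0 : ℝ, ∀ X : ℕ, X0 ≤ X →
    (0 : ℝ) < X ∧ 1 ≤ Real.log (RR X) ∧ 8 / ε ≤ Real.log (RR X) ∧
    (X : ℝ) ^ ((3 : ℝ) / 5) ≤ X * ε / 8 := by
  refine ⟨Real.exp (5 * max 1 (8 / ε)), fun X hX => ?_⟩
  have hX0 : (0 : ℝ) < X := lt_of_lt_of_le (Real.exp_pos _) hX
  have hlog : 5 * max 1 (8 / ε) ≤ Real.log X := by
    rw [← Real.log_exp (5 * max 1 (8 / ε))]
    exact Real.log_le_log (Real.exp_pos _) hX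
  have hRlog : Real.log (RR X) = Real.log X / 5 := by
    unfold RR
    rw [Real.log_rpow hX0]
    ring
  have hm1 := le_max_left (1 : ℝ) (8 / ε)
  have hm2 := le_max_right (1 : ℝ) (8 / ε)
  refine ⟨hX0, by rw [hRlog]; linarith, by rw [hRlog]; linarith, ?_⟩
  have h25 : 8 / ε ≤ (X : ℝ) ^ ((2 : ℝ) / 5) := by
    rw [Real.rpow_def_of_pos hX0]
    have h := Real.add_one_le_exp (Real.log X * (2 / 5))
    linarith
  have h35 : (X : ℝ) ^ ((3 : ℝ) / 5) * (X : ℝ) ^ ((2 : ℝ) / 5) = X := by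
    rw [← Real.rpow_add hX0]
    norm_num
  have h4 := mul_le_mul_of_nonneg_left h25 (Real.rpow_nonneg hX0.le ((3 : ℝ) / 5))
  rw [h35] at h4
  have h5 : (X : ℝ) ^ ((3 : ℝ) / 5) = (X : ℝ) ^ ((3 : ℝ) / 5) * (8 / ε) * ε / 8 := by
    field_simp
  rw [h5]
  have h6 := mul_le_mul_of_nonneg_right h4 hε.le
  linarith

private theorem CmP_G {W X K : ℕ} {M : ℝ} (hW : 1 ≤ W) (hK : 1 ≤ K)
    (h1 : 1 ≤ Real.log (RR X)) (hM : M ≤ Real.log (RR X)) :
    1 ≤ GG W X ^ K ∧ M ≤ GG W X ^ K := by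
  have hd0 : 0 < dlV W := dlV_pos hW
  have hd1 : dlV W ≤ 1 := dlV_le_one W
  have hG : Real.log (RR X) ≤ GG W X := by
    unfold GG
    rw [le_div_iff₀ hd0]
    have h3 : Real.log (RR X) ≤ Real.log (RR X) ^ 3 := le_self_pow₀ h1 (by norm_num)
    have h4 : Real.log (RR X) * dlV W ≤ Real.log (RR X) * 1 :=
      mul_le_mul_of_nonneg_left hd1 (by linarith)
    linarith
  have hG1 : 1 ≤ GG W X := h1.trans hG
  have h2 : GG W X ≤ GG W X ^ K := le_self_pow₀ hG1 (by omega)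
  exact ⟨hG1.trans h2, (hM.trans hG).trans h2⟩

private theorem CmP_one {S D J η ε A e Z x : ℝ} (hZ : 0 < Z) (hη0 : 0 < η)
    (hη1 : η ≤ ε / 8) (hD0 : 0 ≤ D) (hD2 : D ≤ 3 * Z) (hJ1 : (1 - e) * A ≤ J)
    (hJ2 : J ≤ A) (hx : x ≤ Z * ε / 8) (h : |S - D * J| ≤ D * η + x) :
    Z * (D / Z * ((1 - e) * A) - ε) ≤ S ∧ S ≤ Z * (D / Z * A + ε) := by
  obtain ⟨h1, h2⟩ := abs_le.1 h
  have e1 : Z * (D / Z * ((1 - e) * A) - ε) = D * ((1 - e) * A) - Z * ε := by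
    field_simp
  have e2 : Z * (D / Z * A + ε) = D * A + Z * ε := by
    field_simp
  have p4 : D * η ≤ 3 * Z * (ε / 8) := mul_le_mul hD2 hη1 hη0.le (by linarith)
  have hε0 : 0 < ε := by linarith
  have hZε : 0 < Z * ε := mul_pos hZ hε0
  rw [e1, e2]
  constructor
  · have p1 : D * ((1 - e) * A) ≤ D * J := mul_le_mul_of_nonneg_left hJ1 hD0
    linarith
  · have p1 : D * J ≤ D * A := mul_le_mul_of_nonneg_left hJ2 hD0
    linarith

private theorem CmP_two {S D Q η ε A Z x : ℝ} (hZ : 0 < Z) (hη0 : 0 < η)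
    (hη1 : η ≤ ε / 8) (hD0 : 0 ≤ D) (hD2 : D ≤ 3 * Z) (hQ : Q ≤ A)
    (hx : x ≤ Z * ε / 8) (h : S ≤ D * (8 / 3 * Q + η) + x) :
    S ≤ Z * (D / Z * (8 / 3 * A) + ε) := by
  have e2 : Z * (D / Z * (8 / 3 * A) + ε) = D * (8 / 3 * A) + Z * ε := by
    field_simp
  have p4 : D * η ≤ 3 * Z * (ε / 8) := mul_le_mul hD2 hη1 hη0.le (by linarith)
  have hε0 : 0 < ε := by linarith
  have hZε : 0 < Z * ε := mul_pos hZ hε0
  have p1 : D * (8 / 3 * Q) ≤ D * (8 / 3 * A) := mul_le_mul_of_nonneg_left (by linarith) hD0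
  rw [e2]
  linarith

private theorem CmP_cover {m K : ℕ} (S F1 : Finset ℕ) (F2 : Fin K → Finset ℕ)
    (F3 : Fin m → Finset ℕ) (W : ℕ → ℝ) (hW : ∀ b, 0 ≤ W b)
    (hcov : ∀ b ∈ S, b ∈ F1 ∨ (∃ l, b ∈ F2 l) ∨ ∃ i, b ∈ F3 i) :
    ∑ b ∈ S, W b ≤ ∑ b ∈ F1, W b + ∑ l, ∑ b ∈ F2 l, W b + ∑ i, ∑ b ∈ F3 i, W b := by
  classical
  have hite : ∀ (F : Finset ℕ) (b : ℕ), 0 ≤ (if b ∈ F then W b else 0) := by
    intro F b
    split_ifs
    · exact hW b
    · exact le_rfl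
  have hS : ∀ F : Finset ℕ, ∑ b ∈ S, (if b ∈ F then W b else 0) ≤ ∑ b ∈ F, W b := by
    intro F
    rw [Finset.sum_ite_mem]
    exact Finset.sum_le_sum_of_subset_of_nonneg Finset.inter_subset_right fun b _ _ => hW b
  have h1 : ∑ b ∈ S, W b ≤ ∑ b ∈ S, ((if b ∈ F1 then W b else 0) +
      ∑ l, (if b ∈ F2 l then W b else 0) + ∑ i, (if b ∈ F3 i then W b else 0)) := by
    refine Finset.sum_le_sum fun b hb => ?_
    have e1 := hite F1 b
    have e2 : 0 ≤ ∑ l, (if b ∈ F2 l then W b else 0) := Finset.sum_nonneg fun l _ => hite _ b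
    have e3 : 0 ≤ ∑ i, (if b ∈ F3 i then W b else 0) := Finset.sum_nonneg fun l _ => hite _ b
    rcases hcov b hb with h | ⟨l, h⟩ | ⟨i, h⟩
    · rw [if_pos h]
      linarith
    · have e4 := Finset.single_le_sum (f := fun l => if b ∈ F2 l then W b else 0)
        (fun l _ => hite _ b) (Finset.mem_univ l)
      simp only [if_pos h] at e4
      linarith
    · have e4 := Finset.single_le_sum (f := fun i => if b ∈ F3 i then W b else 0)
        (fun l _ => hite _ b) (Finset.mem_univ i)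
      simp only [if_pos h] at e4
      linarith
  refine h1.trans ?_
  rw [Finset.sum_add_distrib, Finset.sum_add_distrib, Finset.sum_comm (s := S) (t := univ),
    Finset.sum_comm (s := S) (t := univ)]
  exact add_le_add (add_le_add (hS F1) (Finset.sum_le_sum fun l _ => hS _))
    (Finset.sum_le_sum fun i _ => hS _)

private theorem CmP_class {p a c b b1 : ℕ} (hp : p.Prime) (ha : ¬ p ∣ a) (h : p ∣ a * b + c)
    (h1 : p ∣ a * b1 + c) : b ≡ b1 [MOD p] := by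
  have e1 : a * b + c ≡ a * b1 + c [MOD p] :=
    (Nat.modEq_zero_iff_dvd.2 h).trans (Nat.modEq_zero_iff_dvd.2 h1).symm
  have e2 : a * b ≡ a * b1 [MOD p] := Nat.ModEq.add_right_cancel' c e1
  exact Nat.ModEq.cancel_left_of_coprime ((Nat.Prime.coprime_iff_not_dvd hp).2 ha) e2

private theorem CmP_rough {X V p0 a c b : ℕ} {u : ℝ} (hVa : V ∣ a) (hcV : c.Coprime V)
    (hp0 : p0.Prime) (hb : ¬ p0 ∣ a * b + c) (hY : Yr (V * p0) X u (a * b + c)) :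
    Rgh ((X : ℝ) ^ (u / 5)) (a * b + c) := by
  intro p hp hpL
  by_contra hcon
  have hle : (p : ℝ) ≤ (RR X) ^ u := by
    have e1 : (RR X) ^ u = (X : ℝ) ^ (u / 5) := by
      unfold RR
      rw [← Real.rpow_mul (Nat.cast_nonneg X)]
      congr 1
      ring
    rw [e1]
    exact not_lt.1 hcon
  refine hY p (mem_QsV.2 ⟨hp, ?_, Nat.le_floor hle⟩) hpL
  intro hdvd
  rcases (Nat.Prime.dvd_mul hp).1 hdvd with h | h
  · have h1 : p ∣ a * b := Dvd.dvd.mul_right (h.trans hVa) b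
    have h2 : p ∣ c := (Nat.dvd_add_right h1).1 hpL
    have h3 := Nat.dvd_gcd h2 h
    rw [hcV] at h3
    exact hp.one_lt.ne' (Nat.dvd_one.1 h3)
  · have h1 : p = p0 := (Nat.prime_dvd_prime_iff_eq hp hp0).1 h
    rw [h1] at hpL
    exact hb hpL

private theorem CmP_tot {S1 S2 S3 Z T K p0 x mm : ℝ} (hZ : 0 < Z) (hT : 0 < T) (hK : 0 < K)
    (hp : 0 < p0) (hm : 0 < mm)
    (h1 : S1 ≤ Z * (T / (4 * 10 ^ 8))) (h2 : S2 ≤ K * (Z * (T + 1) / p0 + x))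
    (h3 : S3 ≤ mm * (Z * (T / (10 ^ 9 * mm)))) (hp0 : K * (T + 1) * (4 * 10 ^ 8) / T ≤ p0)
    (hx : x ≤ Z * (T / (10 ^ 8 * K)) / 8) : S1 + S2 + S3 ≤ Z * (T / 10 ^ 8) := by
  have e1 : K * (Z * (T + 1) / p0) ≤ Z * (T / (4 * 10 ^ 8)) := by
    rw [div_le_iff₀ hT] at hp0
    have e2 : K * (Z * (T + 1) / p0) = Z * (K * (T + 1)) / p0 := by ring
    rw [e2, div_le_iff₀ hp]
    have e3 : Z * (T / (4 * 10 ^ 8)) * p0 = Z * (p0 * T) / (4 * 10 ^ 8) := by ring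
    rw [e3, le_div_iff₀ (by positivity)]
    have e4 := mul_le_mul_of_nonneg_left hp0 hZ.le
    linarith
  have e5 : K * x ≤ Z * (T / (8 * 10 ^ 8)) := by
    have e6 := mul_le_mul_of_nonneg_left hx hK.le
    have e7 : K * (Z * (T / (10 ^ 8 * K)) / 8) = Z * (T / (8 * 10 ^ 8)) := by
      field_simp
    rwa [e7] at e6
  have e8 : mm * (Z * (T / (10 ^ 9 * mm))) = Z * (T / 10 ^ 9) := by
    field_simp
  rw [e8] at h3
  rw [mul_add] at h2
  have hZT : 0 < Z * T := mul_pos hZ hT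
  have e9 : Z * (T / (4 * 10 ^ 8)) = Z * T * (1 / (4 * 10 ^ 8)) := by ring
  have e10 : Z * (T / (8 * 10 ^ 8)) = Z * T * (1 / (8 * 10 ^ 8)) := by ring
  have e11 : Z * (T / 10 ^ 9) = Z * T * (1 / 10 ^ 9) := by ring
  have e12 : Z * (T / 10 ^ 8) = Z * T * (1 / 10 ^ 8) := by ring
  rw [e9] at h1 e1
  rw [e10] at e5
  rw [e11] at h3
  rw [e12]
  norm_num at *
  linarith

theorem tCmP (h1 : TnUStmt) (h2 : BiPStmt) (h3 : MaRStmt) (h4 : MaCStmt) (h5 : MbCStmt)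
    (h6 : MhPStmt) (h7 : UpCStmt) (h8 : PrCStmt) (h9 : MgRStmt) (h10 : EiUStmt) : CmPStmt := by
  classical
  obtain ⟨u, hu0, hu4, hEi⟩ := h10
  refine ⟨u / 5, by positivity, fun m hm => ?_⟩
  obtain ⟨e0, t, A0, he0, he1, ht, hA0, hEi'⟩ := hEi m hm
  obtain ⟨n, r, P, bd, 𝒜, α, T, hn, hD⟩ := h1 m hm (min e0 (1 / 1000)) t (max A0 1000)
    (lt_min he0 (by norm_num)) ht
  have he2 : 0 ≤ min e0 (1 / 1000) := (lt_min he0 (by norm_num)).le
  have hDE : TnE m n P bd 𝒜 α T e0 t A0 := by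
    refine ⟨hD.vda, hD.half, hD.ipn, hD.imp, hD.be, hD.Tp, hD.ap, hD.a1, hD.I1, fun l => ⟨?_, (hD.J1 l).2⟩,
      hD.J2, (le_max_left _ _).trans hD.lo⟩
    refine le_trans ?_ (hD.J1 l).1
    have h11 : min e0 (1 / 1000) ≤ e0 := min_le_left _ _
    exact mul_le_mul_of_nonneg_right (by linarith) (mul_pos hD.ap hD.Tp).le
  have hT := hD.Tp
  have hα := hD.ap
  have hmr : (1 : ℝ) ≤ m := by exact_mod_cast hm
  have hnr : (1 : ℝ) ≤ n := by exact_mod_cast hn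
  obtain ⟨ε, hεd⟩ : ∃ ε : ℝ, ε = T / (10 ^ 6 * n ^ 2) := ⟨_, rfl⟩
  have hε : 0 < ε := by
    rw [hεd]
    positivity
  have hαT : 0 < α * T := mul_pos hα hT
  have hK : 1 ≤ m * n := Nat.mul_pos hm hn
  have hKr : (0 : ℝ) < ((m * n : ℕ) : ℝ) := by exact_mod_cast hK
  obtain ⟨η, hη0, hη1, hη2⟩ : ∃ η : ℝ, 0 < η ∧ η ≤ ε / 8 ∧ η ≤ α * T / 4 :=
    ⟨min (ε / 8) (α * T / 4), lt_min (by linarith) (by linarith), min_le_left _ _,
      min_le_right _ _⟩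
  obtain ⟨XA, hA⟩ := h4 (m * n) r P bd 𝒜 hD.vda η hη0
  obtain ⟨XB, hB⟩ := h5 (m * n) r P bd 𝒜 hD.vda η hη0
  obtain ⟨XH, hH⟩ := h6
  obtain ⟨XU, hU⟩ := h7
  obtain ⟨XP, hP⟩ := h8 (m * n) r P bd 𝒜 hD.vda hD.half hD.ipn hD.imp η hη0
  obtain ⟨κ, w1, XM, hκ, hM⟩ := h9 (m * n) r P bd 𝒜 hD.vda (T / (4 * 10 ^ 8)) (by positivity)
  obtain ⟨XR, hR⟩ := h3 (m * n) r P bd 𝒜 hD.vda 1 one_pos
  obtain ⟨XE, hE⟩ := hEi' n r P bd 𝒜 α T hn hDE
  obtain ⟨XG, hG⟩ := CmP_big ε hε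
  obtain ⟨XF, hF⟩ := CmP_big (T / (10 ^ 8 * ((m * n : ℕ) : ℝ))) (by positivity)
  refine ⟨n, hn, κ, max (max w1 100) ⌈((m * n : ℕ) : ℝ) * (T + 1) * (4 * 10 ^ 8) / T⌉₊,
    max (max (max XA XB) (max XH XU)) (max (max XP XM) (max (max XR XE) (max XG XF))), hκ,
    fun X w V p0 a c hX hw1 hS hBv hcop haX => ?_⟩
  simp only [max_le_iff] at hX
  obtain ⟨⟨⟨hXA, hXB⟩, hXH, hXU⟩, ⟨hXP, hXM⟩, ⟨hXR, hXE⟩, hXG, hXF⟩ := hX
  rw [max_lt_iff, max_lt_iff] at hw1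
  obtain ⟨hX0, hL1, hL2, hX35⟩ := hG X hXG
  obtain ⟨-, -, -, hX35'⟩ := hF X hXF
  have hW : 1 ≤ V * p0 := Nat.mul_pos hS.hV hS.hp.pos
  obtain ⟨hG1, hG2⟩ := CmP_G hW hK hL1 hL2
  have hZ : 0 < (X : ℝ) * GG (V * p0) X ^ (m * n) := mul_pos hX0 (by linarith)
  have hXZ1 : (X : ℝ) ≤ (X : ℝ) * GG (V * p0) X ^ (m * n) := by
    have h12 := mul_le_mul_of_nonneg_left hG1 hX0.le
    linarith
  have hXZ : (X : ℝ) ≤ (X : ℝ) * GG (V * p0) X ^ (m * n) * ε / 8 := by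
    have h8 : 1 ≤ GG (V * p0) X ^ (m * n) * ε / 8 := by
      rw [div_le_iff₀ hε] at hG2
      linarith
    have h9 := mul_le_mul_of_nonneg_left h8 hX0.le
    linarith
  have hDl : ∀ l, (X : ℝ) * GG (V * p0) X ^ (m * n) / 21 ≤
      ((BpC X (a l) (c l)).card : ℝ) * (Real.log (RR X) ^ 4 * GG (V * p0) X ^ (m * n - 1)) ∧
      ((BpC X (a l) (c l)).card : ℝ) * (Real.log (RR X) ^ 4 * GG (V * p0) X ^ (m * n - 1)) ≤
        3 * ((X : ℝ) * GG (V * p0) X ^ (m * n)) := by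
    intro l
    refine ⟨?_, hU X w V p0 (m * n) a c l hXU hS⟩
    have h8 := hH X w V p0 (m * n) a c l hXH hw1.1.2.le hS (hBv l)
    linarith
  have hWn : ∀ b, 0 ≤ WWC (V * p0) X P 𝒜 a c b ^ 2 := fun b => sq_nonneg _
  obtain ⟨𝓡, h𝓡⟩ : ∃ 𝓡 : Finset ℕ,
      𝓡 = (Icc 1 X).filter (fun b => (∀ l, Rgh ((X : ℝ) ^ κ) (a l * b + c l)) ∧
        (∀ l, ¬ p0 ∣ a l * b + c l) ∧
        ∀ i : Fin m, ∃ s : Fin n, Yr (V * p0) X u
          (a (finProdFinEquiv (i, s)) * b + c (finProdFinEquiv (i, s)))) := ⟨_, rfl⟩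
  have hsub : 𝓡 ⊆ Icc 1 X := by
    rw [h𝓡]
    exact Finset.filter_subset _ _
  suffices hmain : ∃ b ∈ 𝓡, (m : ℝ) / 58 ≤ ((univ.filter (fun i : Fin m => ∃ t : Fin n,
      b ∈ BpC X (a (finProdFinEquiv (i, t))) (c (finProdFinEquiv (i, t))))).card : ℝ) by
    obtain ⟨b, hb, hcard⟩ := hmain
    rw [h𝓡, Finset.mem_filter] at hb
    refine ⟨b, hb.1, hb.2.1, fun i => ?_, by exact_mod_cast hcard⟩
    obtain ⟨s, hs⟩ := hb.2.2.2 i
    exact ⟨s, CmP_rough (hS.hVa _) (hcop _).1 hS.hp (hb.2.2.1 _) hs⟩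
  refine h2 m n (Icc 1 X) 𝓡 (fun b => WWC (V * p0) X P 𝒜 a c b ^ 2)
    (fun i t => BpC X (a (finProdFinEquiv (i, t))) (c (finProdFinEquiv (i, t))))
    (fun i t => ((BpC X (a (finProdFinEquiv (i, t))) (c (finProdFinEquiv (i, t)))).card : ℝ) *
      (Real.log (RR X) ^ 4 * GG (V * p0) X ^ (m * n - 1)) / ((X : ℝ) * GG (V * p0) X ^ (m * n)))
    ((X : ℝ) * GG (V * p0) X ^ (m * n)) T α ε (min e0 (1 / 1000)) hm hn hZ hT hα he2 (min_le_right _ _)
    ((le_max_right _ _).trans hD.lo) hWn hsub (fun i t => Finset.filter_subset _ _) (fun i t => ?_) hεd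
    ?_ ?_ ?_ ?_
  · rw [le_div_iff₀ hZ]
    have h8 := (hDl (finProdFinEquiv (i, t))).1
    linarith
  · have h8 := (abs_le.1 (hA X w V p0 a c hXA hS)).2
    have h9 : (X : ℝ) * GG (V * p0) X ^ (m * n) * Iq P 𝒜 ≤
        (X : ℝ) * GG (V * p0) X ^ (m * n) * T := mul_le_mul_of_nonneg_left hD.I1 hZ.le
    have h10 : (X : ℝ) * GG (V * p0) X ^ (m * n) * η ≤
        (X : ℝ) * GG (V * p0) X ^ (m * n) * (ε / 8) := mul_le_mul_of_nonneg_left hη1 hZ.le
    have h11 : (X : ℝ) * ε ≤ (X : ℝ) * GG (V * p0) X ^ (m * n) * ε :=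
      mul_le_mul_of_nonneg_right hXZ1 hε.le
    have h14 : 0 < (X : ℝ) * ε := mul_pos hX0 hε
    show ∑ b ∈ Icc 1 X, WWC (V * p0) X P 𝒜 a c b ^ 2 ≤ _
    nlinarith
  · -- the mass of the complement
    show ∑ b ∈ Icc 1 X \ 𝓡, WWC (V * p0) X P 𝒜 a c b ^ 2 ≤ _
    have hcov := CmP_cover (Icc 1 X \ 𝓡)
      ((Icc 1 X).filter (fun b => ¬ ∀ j, Rgh ((X : ℝ) ^ κ) (a j * b + c j)))
      (fun l : Fin (m * n) => (Icc 1 X).filter (fun b => p0 ∣ a l * b + c l))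
      (fun i : Fin m => (Icc 1 X).filter (fun b => ∀ s : Fin n, ¬ Yr (V * p0) X u
        (a (finProdFinEquiv (i, s)) * b + c (finProdFinEquiv (i, s)))))
      (fun b => WWC (V * p0) X P 𝒜 a c b ^ 2) hWn (by
        intro b hb
        rw [Finset.mem_sdiff] at hb
        obtain ⟨hb1, hb2⟩ := hb
        by_cases c1 : ∀ l, Rgh ((X : ℝ) ^ κ) (a l * b + c l)
        · by_cases c2 : ∀ l, ¬ p0 ∣ a l * b + c l
          · by_cases c3 : ∀ i : Fin m, ∃ s : Fin n, Yr (V * p0) X u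
              (a (finProdFinEquiv (i, s)) * b + c (finProdFinEquiv (i, s)))
            · exact absurd (by rw [h𝓡, Finset.mem_filter]; exact ⟨hb1, c1, c2, c3⟩) hb2
            · push Not at c3
              obtain ⟨i, hi⟩ := c3
              exact Or.inr (Or.inr ⟨i, Finset.mem_filter.2 ⟨hb1, hi⟩⟩)
          · push Not at c2
            obtain ⟨l, hl⟩ := c2
            exact Or.inr (Or.inl ⟨l, Finset.mem_filter.2 ⟨hb1, hl⟩⟩)
        · exact Or.inl (Finset.mem_filter.2 ⟨hb1, c1⟩))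
    refine hcov.trans ?_
    have hp0r : (0 : ℝ) < p0 := by exact_mod_cast hS.hp.pos
    refine CmP_tot (K := ((m * n : ℕ) : ℝ)) (p0 := (p0 : ℝ)) (x := (X : ℝ) ^ ((3 : ℝ) / 5))
      (mm := (m : ℝ)) hZ hT hKr hp0r (by linarith) ?_ ?_ ?_ ?_ ?_
    · -- all forms are rough
      have h11 := hM X w V p0 a c hXM hw1.1.1 hS hcop
      rw [mul_assoc]
      refine le_trans ?_ h11
      refine Finset.sum_le_sum_of_subset_of_nonneg ?_ fun b _ _ => hWn b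
      intro b hb
      rw [Finset.mem_filter] at hb ⊢
      exact hb
    · -- the exceptional prime
      have hone : ∀ l : Fin (m * n), ∑ b ∈ (Icc 1 X).filter (fun b => p0 ∣ a l * b + c l),
          WWC (V * p0) X P 𝒜 a c b ^ 2 ≤
          (X : ℝ) * GG (V * p0) X ^ (m * n) * (T + 1) / p0 + (X : ℝ) ^ ((3 : ℝ) / 5) := by
        intro l
        rcases ((Icc 1 X).filter (fun b => p0 ∣ a l * b + c l)).eq_empty_or_nonempty with h | h
        · rw [h, Finset.sum_empty]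
          positivity
        · obtain ⟨b1, hb1⟩ := h
          rw [Finset.mem_filter] at hb1
          have h11 := (abs_le.1 (hR X w V p0 p0 b1 a c hXR hS (Or.inr rfl))).2
          have h12 : ∑ b ∈ (Icc 1 X).filter (fun b => p0 ∣ a l * b + c l),
              WWC (V * p0) X P 𝒜 a c b ^ 2 ≤
              ∑ b ∈ (Icc 1 X).filter (fun b => b ≡ b1 [MOD p0]),
                WWC (V * p0) X P 𝒜 a c b ^ 2 := by
            refine Finset.sum_le_sum_of_subset_of_nonneg ?_ fun b _ _ => hWn b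
            intro b hb
            rw [Finset.mem_filter] at hb ⊢
            exact ⟨hb.1, CmP_class hS.hp (hcop l).2 hb.2 hb1.2⟩
          have h13 : (X : ℝ) / p0 * (GG (V * p0) X ^ (m * n) * Iq P 𝒜) ≤
              (X : ℝ) / p0 * (GG (V * p0) X ^ (m * n) * T) := by
            have hG0 : 0 ≤ GG (V * p0) X ^ (m * n) := by linarith
            exact mul_le_mul_of_nonneg_left (mul_le_mul_of_nonneg_left hD.I1 hG0) (by positivity)
          have h14 : (X : ℝ) * GG (V * p0) X ^ (m * n) * (T + 1) / p0 =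
              (X : ℝ) / p0 * (GG (V * p0) X ^ (m * n) * T) +
                (X : ℝ) / p0 * (GG (V * p0) X ^ (m * n) * 1) := by ring
          rw [h14]
          linarith
      calc ∑ l : Fin (m * n), ∑ b ∈ (Icc 1 X).filter (fun b => p0 ∣ a l * b + c l),
            WWC (V * p0) X P 𝒜 a c b ^ 2
          ≤ ∑ _l : Fin (m * n), ((X : ℝ) * GG (V * p0) X ^ (m * n) * (T + 1) / p0 +
              (X : ℝ) ^ ((3 : ℝ) / 5)) := Finset.sum_le_sum fun l _ => hone l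
        _ = ((m * n : ℕ) : ℝ) * ((X : ℝ) * GG (V * p0) X ^ (m * n) * (T + 1) / p0 +
              (X : ℝ) ^ ((3 : ℝ) / 5)) := by
            rw [Finset.sum_const, Finset.card_univ, Fintype.card_fin, nsmul_eq_mul]
    · -- the bins without a rough value
      have hone : ∀ i : Fin m, ∑ b ∈ (Icc 1 X).filter (fun b => ∀ s : Fin n,
          ¬ Yr (V * p0) X u (a (finProdFinEquiv (i, s)) * b + c (finProdFinEquiv (i, s)))),
          WWC (V * p0) X P 𝒜 a c b ^ 2 ≤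
          (X : ℝ) * GG (V * p0) X ^ (m * n) * (T / (10 ^ 9 * m)) := by
        intro i
        refine le_trans ?_ (hE X w V p0 a c hXE hS haX i)
        refine Finset.sum_le_sum_of_subset_of_nonneg ?_ fun b _ _ => hWn b
        intro b hb
        rw [Finset.mem_filter] at hb ⊢
        exact hb
      calc ∑ i : Fin m, ∑ b ∈ (Icc 1 X).filter (fun b => ∀ s : Fin n,
            ¬ Yr (V * p0) X u (a (finProdFinEquiv (i, s)) * b + c (finProdFinEquiv (i, s)))),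
            WWC (V * p0) X P 𝒜 a c b ^ 2
          ≤ ∑ _i : Fin m, (X : ℝ) * GG (V * p0) X ^ (m * n) * (T / (10 ^ 9 * m)) :=
            Finset.sum_le_sum fun i _ => hone i
        _ = (m : ℝ) * ((X : ℝ) * GG (V * p0) X ^ (m * n) * (T / (10 ^ 9 * m))) := by
            rw [Finset.sum_const, Finset.card_univ, Fintype.card_fin, nsmul_eq_mul]
    · exact (Nat.le_ceil _).trans (by exact_mod_cast hw1.2.le)
    · have h11 : (X : ℝ) * (T / (10 ^ 8 * ((m * n : ℕ) : ℝ))) ≤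
          (X : ℝ) * GG (V * p0) X ^ (m * n) * (T / (10 ^ 8 * ((m * n : ℕ) : ℝ))) :=
        mul_le_mul_of_nonneg_right hXZ1 (by positivity)
      linarith
  · intro i t
    obtain ⟨hJ1, hJ2⟩ := hD.J1 (finProdFinEquiv (i, t))
    obtain ⟨hD1, hD2⟩ := hDl (finProdFinEquiv (i, t))
    have h8 := hB X w V p0 a c (finProdFinEquiv (i, t)) hXB hS (hBv _)
    have h9 : |∑ b ∈ BpC X (a (finProdFinEquiv (i, t))) (c (finProdFinEquiv (i, t))),
        WWC (V * p0) X P 𝒜 a c b ^ 2 -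
        ((BpC X (a (finProdFinEquiv (i, t))) (c (finProdFinEquiv (i, t)))).card : ℝ) *
          (Real.log (RR X) ^ 4 * GG (V * p0) X ^ (m * n - 1)) * Jq P 𝒜 (finProdFinEquiv (i, t))| ≤
        ((BpC X (a (finProdFinEquiv (i, t))) (c (finProdFinEquiv (i, t)))).card : ℝ) *
          (Real.log (RR X) ^ 4 * GG (V * p0) X ^ (m * n - 1)) * η + X := by
      simpa only [mul_assoc] using h8
    exact CmP_one hZ hη0 hη1 (by linarith) hD2 hJ1 hJ2 hXZ h9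
  · intro i t t' htt
    have hne : (finProdFinEquiv (i, t) : Fin (m * n)) ≠ finProdFinEquiv (i, t') := by
      intro h
      have h8 := finProdFinEquiv.injective h
      rw [Prod.mk.injEq] at h8
      exact htt h8.2
    obtain ⟨hD1, hD2⟩ := hDl (finProdFinEquiv (i, t))
    have h8 := hP X w V p0 a c (finProdFinEquiv (i, t)) (finProdFinEquiv (i, t')) hXP hS (hBv _) hne
    have h9 : ∑ b ∈ BpC X (a (finProdFinEquiv (i, t))) (c (finProdFinEquiv (i, t))) ∩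
          BpC X (a (finProdFinEquiv (i, t'))) (c (finProdFinEquiv (i, t'))),
        WWC (V * p0) X P 𝒜 a c b ^ 2 ≤
        ((BpC X (a (finProdFinEquiv (i, t))) (c (finProdFinEquiv (i, t)))).card : ℝ) *
          (Real.log (RR X) ^ 4 * GG (V * p0) X ^ (m * n - 1)) *
            (8 / 3 * Jq2 P 𝒜 (finProdFinEquiv (i, t)) (finProdFinEquiv (i, t')) + η) + X := by
      simpa only [mul_assoc] using h8
    exact CmP_two hZ hη0 hη1 (by linarith) hD2 (hD.J2 _ _ hne) hXZ h9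

end Pool.Agent.Lib.BE
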